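import Pool.Agent.TH722.FI.Defs
import Pool.Agent.TH480.FI.FI_ENTGEN
import Pool.Agent.TH480.FI.FI_LAB
import Pool.Agent.TH722.FI.BF

/-!
# Bowen functional along balls
-/

set_option autoImplicit false

namespace Pool.Agent.TH416.FI

open MeasureTheory Set Filter Pool.Agent.TH722.FI
open Pool.Agent.TH480.FI (lab_pair lab_of_finer lab_comp ent_gen)
open scoped Topology ENNReal

section general

variable {X : Type*} [MeasurableSpace X] {μ : Measure X} {α β γ δ : Type*}

lemma finer_refl (a : X → α) : Finer a a := fun _ _ h => h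

lemma finer_trans {a : X → α} {b : X → β} {c : X → γ} (h : Finer a b) (h' : Finer b c) :
    Finer a c := fun x y hxy => h' x y (h x y hxy)

lemma finer_pair {a : X → α} {b : X → β} {c : X → γ} (h : Finer a b) (h' : Finer a c) :
    Finer a (fun x => (b x, c x)) := fun x y hxy => Prod.ext (h x y hxy) (h' x y hxy)

lemma finer_fst {a : X → α} {b : X → β} {c : X → γ} (h : Finer a c) :
    Finer (fun x => (a x, b x)) c := fun x y hxy => h x y (Prod.ext_iff.1 hxy).1

lemma finer_snd {a : X → α} {b : X → β} {c : X → γ} (h : Finer b c) :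
    Finer (fun x => (a x, b x)) c := fun x y hxy => h x y (Prod.ext_iff.1 hxy).2

lemma finer_comp {a : X → α} {b : X → β} (h : Finer a b) (T : X → X) :
    Finer (fun x => a (T x)) (fun x => b (T x)) := fun x y hxy => h _ _ hxy

lemma mass_congr {a : X → α} {b : X → β} (h : Finer a b) (h' : Finer b a) (x : X) :
    mass μ a x = mass μ b x := by
  unfold mass
  congr 1
  ext y
  exact ⟨fun hy => h y x hy, fun hy => h' y x hy⟩

lemma ent_congr {a : X → α} {b : X → β} (h : Finer a b) (h' : Finer b a) :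
    ent μ a = ent μ b := by
  unfold ent info
  simp only [mass_congr h h']

end general

section free

variable {r : ℕ} {X : Type*} [MeasurableSpace X] {μ : Measure X}
  [IsProbabilityMeasure μ] {α β γ : Type*}

lemma BF_congr (U : FreeGroup (Fin r) → X → X) {a : X → α} {b : X → β} (h : Finer a b)
    (h' : Finer b a) : BF μ U a = BF μ U b := by
  unfold BF
  rw [ent_congr h h']
  congr 1
  refine Finset.sum_congr rfl fun i _ => ?_
  exact ent_congr (finer_pair (finer_fst h) (finer_snd (finer_comp h _)))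
    (finer_pair (finer_fst h') (finer_snd (finer_comp h' _)))

/-- generators and their inverses -/
noncomputable def gens (r : ℕ) : Finset (FreeGroup (Fin r)) := by
  classical
  exact (Finset.univ.image fun i : Fin r => FreeGroup.of i) ∪
    (Finset.univ.image fun i : Fin r => (FreeGroup.of i)⁻¹)

lemma mem_gens {s : FreeGroup (Fin r)} :
    s ∈ gens r ↔ ∃ i : Fin r, s = FreeGroup.of i ∨ s = (FreeGroup.of i)⁻¹ := by
  classical
  unfold gens
  rw [Finset.mem_union, Finset.mem_image, Finset.mem_image]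
  constructor
  · rintro (⟨i, _, h⟩ | ⟨i, _, h⟩)
    · exact ⟨i, Or.inl h.symm⟩
    · exact ⟨i, Or.inr h.symm⟩
  · rintro ⟨i, h | h⟩
    · exact Or.inl ⟨i, Finset.mem_univ _, h.symm⟩
    · exact Or.inr ⟨i, Finset.mem_univ _, h.symm⟩

/-- the label `l` together with the translates of `c` -/
def extL (U : FreeGroup (Fin r) → X → X) (l : X → α) (c : X → γ)
    (F : Finset (FreeGroup (Fin r))) (x : X) : α × (F → γ) :=
  (l x, fun s => c (U s x))

lemma extL_lab (U : FreeGroup (Fin r) → X → X) (hU : FreeAct μ U) {l : X → α} (hl : IsLab μ l)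
    {c : X → γ} (hc : Finer l c) (F : Finset (FreeGroup (Fin r)))
    (hF : ∀ s ∈ F, ∃ i : Fin r, s = FreeGroup.of i ∨ s = (FreeGroup.of i)⁻¹) :
    IsLab μ (extL U l c F) ∧ BF μ U (extL U l c F) ≤ BF μ U l := by
  classical
  induction F using Finset.induction_on with
  | empty =>
    have h1 : Finer l (extL U l c ∅) := by
      intro x y hxy
      refine Prod.ext hxy ?_
      funext s
      exact absurd s.2 (Finset.notMem_empty _)
    have h2 : Finer (extL U l c ∅) l := fun x y hxy => (Prod.ext_iff.1 hxy).1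
    exact ⟨(lab_of_finer hl h1).1, (BF_congr U h2 h1).le⟩
  | insert s F hs ih =>
    obtain ⟨ih1, ih2⟩ := ih fun s hs => hF s (Finset.mem_insert_of_mem hs)
    have hcF : Finer (extL U l c F) c := fun x y hxy => hc x y (Prod.ext_iff.1 hxy).1
    have hcl : IsLab μ c := (lab_of_finer hl hc).1
    have hq : IsLab μ (fun x => (extL U l c F x, c (U s x))) :=
      (lab_pair ih1 (lab_comp (hU.mp s) hcl).1).1
    have h1 : Finer (fun x => (extL U l c F x, c (U s x))) (extL U l c (insert s F)) := by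
      intro x y hxy
      obtain ⟨e1, e2⟩ := Prod.ext_iff.1 hxy
      refine Prod.ext (Prod.ext_iff.1 e1).1 ?_
      funext t
      rcases Finset.mem_insert.1 t.2 with ht | ht
      · show c (U t x) = c (U t y)
        rw [ht]
        exact e2
      · exact congrFun (Prod.ext_iff.1 e1).2 ⟨t, ht⟩
    have h2 : Finer (extL U l c (insert s F)) (fun x => (extL U l c F x, c (U s x))) := by
      intro x y hxy
      obtain ⟨e1, e2⟩ := Prod.ext_iff.1 hxy
      refine Prod.ext (Prod.ext e1 ?_) (congrFun e2 ⟨s, Finset.mem_insert_self s F⟩)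
      funext t
      exact congrFun e2 ⟨t, Finset.mem_insert_of_mem t.2⟩
    refine ⟨(lab_of_finer hq h1).1, ?_⟩
    rw [BF_congr U h2 h1]
    refine le_trans ?_ ih2
    obtain ⟨i, hi | hi⟩ := hF s (Finset.mem_insert_self s F)
    · rw [hi]
      exact (BF_split U hU ih1 hcF i).1
    · rw [hi]
      exact (BF_split U hU ih1 hcF i).2

/-! ### Balls -/

lemma norm_gen {s : FreeGroup (Fin r)} (hs : s ∈ gens r) : s.norm ≤ 1 := by
  obtain ⟨i, h | h⟩ := mem_gens.1 hs
  · rw [h]
    simp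
  · rw [h, FreeGroup.norm_inv_eq]
    simp

lemma inv_gen {s : FreeGroup (Fin r)} (hs : s ∈ gens r) : s⁻¹ ∈ gens r := by
  obtain ⟨i, h | h⟩ := mem_gens.1 hs
  · exact mem_gens.2 ⟨i, Or.inr (by rw [h])⟩
  · exact mem_gens.2 ⟨i, Or.inl (by rw [h, inv_inv])⟩

/-- splitting off the last letter -/
lemma exists_last {g : FreeGroup (Fin r)} {n : ℕ} (h : g.norm ≤ n + 1) :
    g.norm ≤ n ∨ ∃ h s : FreeGroup (Fin r), s ∈ gens r ∧ h.norm ≤ n ∧ g = h * s := by
  rcases List.eq_nil_or_concat g.toWord with h0 | ⟨L, a, hL⟩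
  · left
    unfold FreeGroup.norm
    rw [h0]
    simp
  · right
    refine ⟨FreeGroup.mk L, FreeGroup.mk [a], ?_, ?_, ?_⟩
    · obtain ⟨i, b⟩ := a
      cases b
      · exact mem_gens.2 ⟨i, Or.inr rfl⟩
      · exact mem_gens.2 ⟨i, Or.inl rfl⟩
    · refine FreeGroup.norm_mk_le.trans ?_
      have h1 : g.toWord.length ≤ n + 1 := h
      rw [hL] at h1
      simp only [List.concat_eq_append, List.length_append, List.length_singleton] at h1
      omega
    · rw [← FreeGroup.mk_toWord (x := g), hL, List.concat_eq_append]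
      rfl

lemma ball_zero (U : FreeGroup (Fin r) → X → X) (hU : FreeAct μ U) (φ : X → α) :
    Finer φ (ballLab U φ 0) ∧ Finer (ballLab U φ 0) φ := by
  constructor
  · intro x y hxy
    funext k
    have hk : k.1 = 1 := FreeGroup.norm_eq_zero.1 (Nat.le_zero.1 k.2)
    show φ (U k.1⁻¹ x) = φ (U k.1⁻¹ y)
    rw [hk, inv_one, hU.one, hU.one]
    exact hxy
  · intro x y hxy
    have h := congrFun hxy ⟨1, by simp⟩
    have h' : φ (U (1 : FreeGroup (Fin r))⁻¹ x) = φ (U (1 : FreeGroup (Fin r))⁻¹ y) := h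
    rwa [inv_one, hU.one, hU.one] at h'

lemma ball_le (U : FreeGroup (Fin r) → X → X) (φ : X → α) {m n : ℕ} (h : m ≤ n) :
    Finer (ballLab U φ n) (ballLab U φ m) := by
  intro x y hxy
  funext k
  exact congrFun hxy ⟨k.1, k.2.trans h⟩

/-- the ball of radius `n + 1` from that of radius `n` -/
lemma ball_succ (U : FreeGroup (Fin r) → X → X) (hU : FreeAct μ U) (φ : X → α) (n : ℕ)
    {x y : X} (h0 : ballLab U φ n x = ballLab U φ n y)
    (h1 : ∀ s ∈ gens r, ballLab U φ n (U s x) = ballLab U φ n (U s y)) :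
    ballLab U φ (n + 1) x = ballLab U φ (n + 1) y := by
  funext k
  show φ (U k.1⁻¹ x) = φ (U k.1⁻¹ y)
  have hk : k.1⁻¹.norm ≤ n + 1 := by
    rw [FreeGroup.norm_inv_eq]
    exact k.2
  rcases exists_last hk with h | ⟨h, s, hs, hn, e⟩
  · rw [FreeGroup.norm_inv_eq] at h
    exact congrFun h0 ⟨k.1, h⟩
  · rw [e, hU.mul, hU.mul]
    have h2 := congrFun (h1 s hs) ⟨h⁻¹, by rw [FreeGroup.norm_inv_eq]; exact hn⟩
    have h3 : φ (U h⁻¹⁻¹ (U s x)) = φ (U h⁻¹⁻¹ (U s y)) := h2
    rwa [inv_inv] at h3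

lemma ball_shift (U : FreeGroup (Fin r) → X → X) (hU : FreeAct μ U) (φ : X → α) (n : ℕ)
    {s : FreeGroup (Fin r)} (hs : s ∈ gens r) :
    Finer (ballLab U φ (n + 1)) (fun x => ballLab U φ n (U s x)) := by
  intro x y hxy
  funext k
  show φ (U k.1⁻¹ (U s x)) = φ (U k.1⁻¹ (U s y))
  rw [← hU.mul, ← hU.mul]
  have h1 : (k.1⁻¹ * s)⁻¹.norm ≤ n + 1 := by
    rw [FreeGroup.norm_inv_eq]
    refine (FreeGroup.norm_mul_le _ _).trans ?_
    rw [FreeGroup.norm_inv_eq]
    exact add_le_add k.2 (norm_gen hs)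
  have h2 := congrFun hxy ⟨(k.1⁻¹ * s)⁻¹, h1⟩
  have h3 : φ (U (k.1⁻¹ * s)⁻¹⁻¹ x) = φ (U (k.1⁻¹ * s)⁻¹⁻¹ y) := h2
  rwa [inv_inv] at h3

/-- adding the balls to a label that determines `φ` -/
lemma add_balls (U : FreeGroup (Fin r) → X → X) (hU : FreeAct μ U) {φ : X → α} {l : X → β}
    (hl : IsLab μ l) (hlφ : Finer l φ) (n : ℕ) :
    IsLab μ (fun x => (l x, ballLab U φ n x)) ∧
      BF μ U (fun x => (l x, ballLab U φ n x)) ≤ BF μ U l := by
  induction n with
  | zero =>
    have h1 : Finer l (fun x => (l x, ballLab U φ 0 x)) :=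
      finer_pair (finer_refl l) (finer_trans hlφ (ball_zero U hU φ).1)
    have h2 : Finer (fun x => (l x, ballLab U φ 0 x)) l := finer_fst (finer_refl l)
    exact ⟨(lab_of_finer hl h1).1, (BF_congr U h2 h1).le⟩
  | succ n ih =>
    obtain ⟨ih1, ih2⟩ := ih
    have hc : Finer (fun x => (l x, ballLab U φ n x)) (ballLab U φ n) :=
      finer_snd (finer_refl _)
    obtain ⟨h1, h2⟩ := extL_lab U hU ih1 hc (gens r) fun s hs => mem_gens.1 hs
    have h3 : Finer (extL U (fun x => (l x, ballLab U φ n x)) (ballLab U φ n) (gens r))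
        (fun x => (l x, ballLab U φ (n + 1) x)) := by
      intro x y hxy
      obtain ⟨e1, e2⟩ := Prod.ext_iff.1 hxy
      obtain ⟨e3, e4⟩ := Prod.ext_iff.1 e1
      refine Prod.ext e3 (ball_succ U hU φ n e4 fun s hs => ?_)
      exact congrFun e2 ⟨s, hs⟩
    have h4 : Finer (fun x => (l x, ballLab U φ (n + 1) x))
        (extL U (fun x => (l x, ballLab U φ n x)) (ballLab U φ n) (gens r)) := by
      intro x y hxy
      obtain ⟨e1, e2⟩ := Prod.ext_iff.1 hxy
      refine Prod.ext (Prod.ext e1 (ball_le U φ n.le_succ x y e2)) ?_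
      funext s
      exact ball_shift U hU φ n s.2 x y e2
    refine ⟨(lab_of_finer h1 h3).1, ?_⟩
    rw [BF_congr U h4 h3]
    exact h2.trans ih2

lemma ball_step (U : FreeGroup (Fin r) → X → X) (hU : FreeAct μ U) {φ : X → α} (n : ℕ)
    (hn : IsLab μ (ballLab U φ n)) :
    IsLab μ (ballLab U φ (n + 1)) ∧ BF μ U (ballLab U φ (n + 1)) ≤ BF μ U (ballLab U φ n) := by
  obtain ⟨h1, h2⟩ := extL_lab U hU hn (finer_refl _) (gens r) fun s hs => mem_gens.1 hs
  have h3 : Finer (extL U (ballLab U φ n) (ballLab U φ n) (gens r)) (ballLab U φ (n + 1)) := by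
    intro x y hxy
    obtain ⟨e1, e2⟩ := Prod.ext_iff.1 hxy
    exact ball_succ U hU φ n e1 fun s hs => congrFun e2 ⟨s, hs⟩
  have h4 : Finer (ballLab U φ (n + 1)) (extL U (ballLab U φ n) (ballLab U φ n) (gens r)) := by
    intro x y hxy
    refine Prod.ext (ball_le U φ n.le_succ x y hxy) ?_
    funext s
    exact ball_shift U hU φ n s.2 x y hxy
  refine ⟨(lab_of_finer h1 h3).1, ?_⟩
  rw [BF_congr U h4 h3]
  exact h2

theorem BF_antitone (U : FreeGroup (Fin r) → X → X) (hU : FreeAct μ U) {φ : X → α}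
    (hφ : IsLab μ φ) : (∀ n, IsLab μ (ballLab U φ n)) ∧
      Antitone (fun n => BF μ U (ballLab U φ n)) := by
  have h1 : ∀ n, IsLab μ (ballLab U φ n) := by
    intro n
    induction n with
    | zero => exact (lab_of_finer hφ (ball_zero U hU φ).1).1
    | succ n ih => exact (ball_step U hU n ih).1
  exact ⟨h1, antitone_nat_of_succ_le fun n => (ball_step U hU n (h1 n)).2⟩

lemma ent_ball (U : FreeGroup (Fin r) → X → X) (hU : FreeAct μ U) {φ : X → α}
    (hφ : IsLab μ φ) (hgen : Gen μ U φ) {c : X → γ} (hc : IsLab μ c) :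
    Tendsto (fun n => ent μ (fun x => (ballLab U φ n x, c x)) - ent μ (ballLab U φ n)) atTop
      (𝓝 0) := by
  refine ent_gen (fun n => ballLab U φ n) (BF_antitone U hU hφ).1
    (fun n => ball_le U φ n.le_succ) ?_ hc
  intro B hB
  obtain ⟨B', hB', h⟩ := hgen B hB
  refine ⟨B', ?_, h⟩
  have hle : (⨆ g, MeasurableSpace.comap (fun x => φ (U g x)) ⊤) ≤
      ⨆ n, MeasurableSpace.comap (ballLab U φ n) ⊤ := by
    refine iSup_le fun g => ?_
    refine le_trans ?_ (le_iSup _ g.norm)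
    have hg : g⁻¹.norm ≤ g.norm := by rw [FreeGroup.norm_inv_eq]
    have e : (fun x => φ (U g x)) = (fun w => w ⟨g⁻¹, hg⟩) ∘ (ballLab U φ g.norm) := by
      funext x
      show φ (U g x) = φ (U g⁻¹⁻¹ x)
      rw [inv_inv]
    rw [e, ← MeasurableSpace.comap_comp]
    exact MeasurableSpace.comap_mono le_top
  exact hle _ hB'

theorem BF_join_gen (U : FreeGroup (Fin r) → X → X) (hU : FreeAct μ U) {φ : X → α}
    (hφ : IsLab μ φ) (hgen : Gen μ U φ) {c : X → γ} (hc : IsLab μ c)
    (ε : ℝ) (hε : 0 < ε) : ∃ n0, ∀ n ≥ n0,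
      IsLab μ (fun x => (ballLab U φ n x, c x)) ∧
      BF μ U (fun x => (ballLab U φ n x, c x)) ≤ BF μ U (ballLab U φ n) + ε := by
  have h1 := ent_ball U hU hφ hgen hc
  obtain ⟨n0, hn0⟩ := (h1.eventually (gt_mem_nhds hε)).exists_forall_of_atTop
  refine ⟨n0, fun n hn => ?_⟩
  have h2 := (BF_antitone U hU hφ).1 n
  refine ⟨(lab_pair h2 hc).1, (BF_join U hU h2 hc).trans ?_⟩
  have h3 := hn0 n hn
  linarith

theorem BF_le_of_finer (U : FreeGroup (Fin r) → X → X) (hU : FreeAct μ U) {φ : X → α}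
    (hφ : IsLab μ φ) (hgen : Gen μ U φ) {l : X → β} (hl : IsLab μ l) (hlφ : Finer l φ)
    (ε : ℝ) (hε : 0 < ε) : ∃ n, BF μ U (ballLab U φ n) ≤ BF μ U l + ε := by
  have h1 := (ent_ball U hU hφ hgen hl).const_mul (2 * (r : ℝ) - 1)
  rw [mul_zero] at h1
  obtain ⟨n, hn⟩ := (h1.eventually (gt_mem_nhds hε)).exists
  refine ⟨n, ?_⟩
  have hp := (BF_antitone U hU hφ).1 n
  have hpl := (lab_pair hp hl).1
  obtain ⟨hlp, hle⟩ := add_balls U hU hl hlφ n
  have e1 : BF μ U (fun x => (ballLab U φ n x, l x)) = BF μ U (fun x => (l x, ballLab U φ n x)) :=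
    BF_congr U (finer_pair (finer_snd (finer_refl _)) (finer_fst (finer_refl _)))
      (finer_pair (finer_snd (finer_refl _)) (finer_fst (finer_refl _)))
  have h2 : BF μ U (ballLab U φ n) ≤ BF μ U (fun x => (ballLab U φ n x, l x)) +
      (2 * (r : ℝ) - 1) * (ent μ (fun x => (ballLab U φ n x, l x)) - ent μ (ballLab U φ n)) := by
    unfold BF
    have h3 : ∑ i : Fin r, ent μ (fun x => (ballLab U φ n x,
          ballLab U φ n (U (FreeGroup.of i)⁻¹ x))) ≤
        ∑ i : Fin r, ent μ (fun x => ((ballLab U φ n x, l x),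
          (ballLab U φ n (U (FreeGroup.of i)⁻¹ x), l (U (FreeGroup.of i)⁻¹ x)))) := by
      refine Finset.sum_le_sum fun i _ => ?_
      have h4 := (lab_pair hpl (lab_comp (hU.mp (FreeGroup.of i)⁻¹) hpl).1).1
      refine (lab_of_finer h4 ?_).2
      exact finer_pair (finer_fst (finer_fst (finer_refl _)))
        (finer_snd (finer_comp (finer_fst (finer_refl _)) _))
    linarith
  rw [e1] at h2
  linarith

end free

end Pool.Agent.TH416.FI
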